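import Pool.Agent.KS6_4.EH.Fin

/-!
# Entire images of `ℂ^{k-p}` in the filled Julia set: Q1 fails in every dimension

For every `k` and every `1 ≤ p ≤ k - 2` the iterate `f = F^{p(k-p)}` of the shift-like map
`F(x_0, …, x_{k-1}) = (x_1, …, x_{k-1}, a (x_0 + x_{k-p} ^ D))` is a Henon-type automorphism of
`ℂ^k` with the parameter `p`, and the basin of its attracting fixed point contains an injectively
immersed copy of `ℂ^{k-p}` whose closure in `ℙ^k` supports no current of mass one.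
-/

set_option autoImplicit false

namespace Pool.Agent.Results.MP_2777d9_an.EveryDimension

open Pool.Agent.H72R3.HJ Pool.Agent.KS6_4.EH Set

/-- Let `p ≥ 1`, `m ≥ 1`, `q = m + 1`, `k = p + q` (so that `(k, p)` is an arbitrary pair with
`1 ≤ p ≤ k - 2`), `D ≥ 2k + 2`, `0 < |a| ≤ 100^{-k}`, and let
`F(x) = (x_1, …, x_{k-1}, a (x_0 + x_q ^ D))` on `ℂ^k`. Then `f = F^{pq}` is a Henon-type
automorphism of `ℂ^k` with `dim I(f) = k - p - 1` and `dim I(f⁻¹) = p - 1`, and there is an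
injective holomorphic immersion `τ : ℂ^{k-p} → ℂ^k` with values in the filled Julia set of `f` such
that every closed current `T` of dimension `2(k-p)` on `ℙ^k` which is supported in the closure of
`τ(ℂ^{k-p})` satisfies `⟨T, ω^{k-p}⟩ = 0`. -/
theorem result (p m D : ℕ) (hp : 1 ≤ p) (hm : 1 ≤ m) (hD : 2 * (p + (m + 1)) + 2 ≤ D)
    (a : ℂ) (ha0 : a ≠ 0) (ha : ‖a‖ ≤ (1 / 100) ^ (p + (m + 1))) :
    ∃ (P Q : PolyMap (p + (m + 1))) (τ : (Fin (m + 1) → ℂ) → Fin (p + (m + 1)) → ℂ),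
      toFun P = (shiftLike (m + 1) D (Nat.lt_add_of_pos_left hp) a)^[p * (m + 1)] ∧
      IsHenonType P Q p ∧
      Differentiable ℂ τ ∧
      Function.Injective τ ∧
      (∀ ζ, Function.Injective (fderiv ℂ τ ζ)) ∧
      (∀ ζ, τ ζ ∈ filledJulia P) ∧
      ∀ T : FormFun (p + (m + 1)) (2 * m + 1 + 1) → ℝ, IsClosedCurrent T →
        IsSupportedInClosure T (range τ) → T (wpow (omega (p + (m + 1))) m) = 0 := by
  have hq : m + 1 < p + (m + 1) := Nat.lt_add_of_pos_left hp
  obtain ⟨τ, h1, h2, h3, h4, c, hc, h5⟩ := exists_tau (q := m + 1) (k := p + (m + 1)) (D := D)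
    (a := a) (by omega) hq hD ha0 ha
  have hP : toFun (PG (m + 1) D hq a (m + 1)) = (shiftLike (m + 1) D hq a)^[p * (m + 1)] := by
    rw [toFun_PG_eq]
    congr 2
    omega
  refine ⟨PG (m + 1) D hq a (m + 1), QH (m + 1) D hq a p, τ, hP,
    isHenon (by omega) ha0 (by omega) p rfl hp, h1, h2, h3, ?_, ?_⟩
  · intro ζ
    obtain ⟨C, hC⟩ := h4 ζ
    exact mem_julia hP hC
  · intro T hT hs
    refine zero_mass (projL hq) hc (cone_ineq hq ?_) T hT hs
    rintro _ ⟨ζ, rfl⟩
    exact h5 ζ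

end Pool.Agent.Results.MP_2777d9_an.EveryDimension
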